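import Pool.Agent.helper38.OP.Spec

/-! Row op:AV1 (MP_bf63dc_nt): averages over progressions. -/

set_option autoImplicit false

namespace Pool.Agent.OP

open Finset Real Pool.Agent.AT Pool.Agent.helper85.FC Pool.Agent.OM

theorem AV1_step (g : ℤ → ℝ) (hg : ∀ x, 0 ≤ g x ∧ g x ≤ 1) (M : ℕ) (c : ℤ) :
    |∑ w ∈ range M, g (c + 1 + w) - ∑ w ∈ range M, g (c + w)| ≤ 1 := by
  have h1 := Finset.sum_range_succ (fun w : ℕ => g (c + w)) M
  have h2 := Finset.sum_range_succ' (fun w : ℕ => g (c + w)) M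
  have h3 : ∑ w ∈ range M, g (c + ((w + 1 : ℕ) : ℤ)) = ∑ w ∈ range M, g (c + 1 + w) := by
    refine Finset.sum_congr rfl fun w _ => ?_
    congr 1
    push_cast
    ring
  rw [h3] at h2
  have h4 := hg (c + ((0 : ℕ) : ℤ))
  have h5 := hg (c + (M : ℤ))
  rw [abs_le]
  constructor <;> linarith

theorem AV1_shift (g : ℤ → ℝ) (hg : ∀ x, 0 ≤ g x ∧ g x ≤ 1) (M : ℕ) (c : ℤ) (k : ℕ) :
    |∑ w ∈ range M, g (c + k + w) - ∑ w ∈ range M, g (c + w)| ≤ k := by
  induction k with
  | zero => simp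
  | succ k ih =>
    have h1 := AV1_step g hg M (c + k)
    have h2 : ∑ w ∈ range M, g (c + ((k + 1 : ℕ) : ℤ) + w) = ∑ w ∈ range M, g (c + k + 1 + w) := by
      refine Finset.sum_congr rfl fun w _ => ?_
      congr 1
      push_cast
      ring
    rw [h2]
    push_cast
    have h3 := abs_sub_le (∑ w ∈ range M, g (c + k + 1 + w)) (∑ w ∈ range M, g (c + k + w)) (∑ w ∈ range M, g (c + w))
    linarith

/-- a sum over a shifted window -/
theorem AV1_low (g : ℤ → ℝ) (hg : ∀ x, 0 ≤ g x ∧ g x ≤ 1) (M : ℕ) (c : ℤ) :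
    ∑ w ∈ range M, g w - |(c : ℝ)| ≤ ∑ w ∈ range M, g (c + w) := by
  rcases le_total 0 c with h | h
  · obtain ⟨k, rfl⟩ := Int.eq_ofNat_of_zero_le h
    have h1 := AV1_shift g hg M 0 k
    simp only [zero_add] at h1
    have h2 : |(((k : ℤ)) : ℝ)| = (k : ℝ) := by
      rw [Int.cast_natCast]
      exact abs_of_nonneg (Nat.cast_nonneg k)
    rw [h2]
    have h3 := (abs_le.1 h1).1
    linarith
  · obtain ⟨k, hk⟩ := Int.exists_eq_neg_ofNat h
    have h1 := AV1_shift g hg M c k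
    have h2 : ∑ w ∈ range M, g (c + k + w) = ∑ w ∈ range M, g w := by
      refine Finset.sum_congr rfl fun w _ => ?_
      congr 1
      rw [hk]
      ring
    rw [h2] at h1
    have h3 : |(c : ℝ)| = (k : ℝ) := by
      rw [hk]
      push_cast
      rw [abs_neg]
      exact abs_of_nonneg (Nat.cast_nonneg k)
    rw [h3]
    have h4 := (abs_le.1 h1).2
    linarith

/-- a sum over blocks -/
theorem AV1_block (f : ℕ → ℝ) (β K : ℕ) : ∑ w ∈ range (β * K), f w = ∑ s ∈ range K, ∑ r ∈ range β, f (β * s + r) := by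
  induction K with
  | zero => simp
  | succ K ih =>
    rw [Finset.sum_range_succ, ← ih, Nat.mul_succ, Finset.sum_range_add]

theorem AV1 : AV1_stmt := by
  intro N T β z κ ε hβ hT hκ hκ1 hε hε1 hz hβT hTN g hg hsum
  have hTpos : (0 : ℝ) < T := by exact_mod_cast hT
  have hβpos : (0 : ℝ) < β := by exact_mod_cast hβ
  set T' := T / β with hT'
  have hle : β * T' ≤ T := Nat.mul_div_le T β
  have hlt : T < β * T' + β := by
    have := Nat.lt_div_mul_add (a := T) (b := β) hβ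
    rw [Nat.mul_comm] at this
    exact this
  have hleR : (β : ℝ) * T' ≤ T := by exact_mod_cast hle
  have hltR : (T : ℝ) ≤ β * T' + β := by exact_mod_cast hlt.le
  -- the inner sums
  have h1 : ∀ x : ℕ, ∑ s ∈ range T', ∑ r ∈ range β, g (z + β * x + ((β * s + r : ℕ) : ℤ)) ≤ ∑ t ∈ range T, g (z + β * x + t) := by
    intro x
    rw [← AV1_block (fun w => g (z + β * x + (w : ℤ))) β T']
    refine Finset.sum_le_sum_of_subset_of_nonneg ?_ fun i _ _ => (hg _).1
    exact Finset.range_subset_range.2 hle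
  have h2 : ∀ s : ℕ, ε * (β * N) - β - β * s ≤ ∑ x ∈ range N, ∑ r ∈ range β, g (z + β * x + ((β * s + r : ℕ) : ℤ)) := by
    intro s
    have h3 := AV1_block (fun w => g (z + β * s + (w : ℤ))) β N
    have h4 : ∑ x ∈ range N, ∑ r ∈ range β, g (z + β * x + ((β * s + r : ℕ) : ℤ)) =
        ∑ x ∈ range N, ∑ r ∈ range β, g (z + β * s + ((β * x + r : ℕ) : ℤ)) := by
      refine Finset.sum_congr rfl fun x _ => Finset.sum_congr rfl fun r _ => ?_
      congr 1
      push_cast
      ring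
    rw [h4, ← h3]
    have h5 := AV1_low g hg (β * N) (z + β * s)
    have h6 : |((z + β * s : ℤ) : ℝ)| ≤ β + β * s := by
      push_cast
      refine (abs_add_le _ _).trans ?_
      have h7 : |(z : ℝ)| ≤ β := by
        rw [← Int.cast_abs]
        exact_mod_cast hz
      have h8 : |((β : ℝ) * s)| = β * s := abs_of_nonneg (by positivity)
      rw [h8]
      linarith
    linarith
  have h3 : ∑ s ∈ range T', (ε * (β * N) - β - β * s) ≤ ∑ x ∈ range N, ∑ t ∈ range T, g (z + β * x + t) := by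
    refine (Finset.sum_le_sum fun s _ => h2 s).trans ?_
    rw [Finset.sum_comm]
    exact Finset.sum_le_sum fun x _ => h1 x
  have h4 : (T' : ℝ) * (ε * (β * N) - β) - β * (T' * T' / 2) ≤ ∑ s ∈ range T', (ε * (β * N) - β - β * (s : ℝ)) := by
    rw [Finset.sum_sub_distrib, Finset.sum_const, Finset.card_range, nsmul_eq_mul, ← Finset.mul_sum]
    have h5 : ∑ s ∈ range T', (s : ℝ) ≤ T' * T' / 2 := by
      have h6 := Finset.sum_range_id_mul_two T'
      have h7 : (∑ s ∈ range T', (s : ℝ)) * 2 = (T' : ℝ) * ((T' - 1 : ℕ) : ℝ) := by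
        rw [← Nat.cast_sum, ← Nat.cast_mul, ← h6, Nat.cast_mul, Nat.cast_ofNat]
      have h8 : ((T' - 1 : ℕ) : ℝ) ≤ T' := by exact_mod_cast Nat.sub_le T' 1
      have h9 : (0 : ℝ) ≤ T' := Nat.cast_nonneg _
      nlinarith
    have h6 := mul_le_mul_of_nonneg_left h5 hβpos.le
    linarith
  have hS := h4.trans h3
  -- the inequalities
  have hNT : (0 : ℝ) ≤ (N : ℝ) * T := by positivity
  have hN1 : (1 : ℝ) ≤ κ * N := by
    have h5 : (T : ℝ) ≤ κ * (κ * T * N) := by
      refine hTN.trans ?_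
      refine mul_le_mul_of_nonneg_left ?_ hκ.le
      exact mul_le_mul_of_nonneg_right hβT (Nat.cast_nonneg N)
    have h6 : 1 ≤ κ * (κ * N) := by
      by_contra h7
      push Not at h7
      have h8 : (T : ℝ) * (κ * (κ * N)) < T * 1 := mul_lt_mul_of_pos_left h7 hTpos
      nlinarith
    have h9 : κ * (κ * N) ≤ 1 * (κ * N) := mul_le_mul_of_nonneg_right hκ1 (by positivity)
    linarith
  have hT'N : (T' : ℝ) ≤ κ * N := by
    have h5 : (β : ℝ) * T' ≤ β * (κ * N) := by
      have := hleR.trans hTN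
      linarith [this, mul_comm κ ((β : ℝ) * N), mul_assoc (β : ℝ) κ (N : ℝ), mul_comm κ (N : ℝ), mul_assoc (β : ℝ) (N : ℝ) κ, mul_left_comm κ (β : ℝ) (N : ℝ)]
    exact le_of_mul_le_mul_left h5 hβpos
  have hgoal : (ε - 3 * κ) * N * T ≤ ∑ x ∈ range N, ∑ t ∈ range T, g (z + β * x + t) := by
    refine le_trans ?_ hS
    have e1 : (ε : ℝ) * N * (T - β) ≤ ε * N * (β * T') := by
      refine mul_le_mul_of_nonneg_left ?_ (by positivity)
      linarith
    have e2 : (ε : ℝ) * N * β ≤ κ * (N * T) := by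
      have : (ε : ℝ) * (N * β) ≤ 1 * (N * (κ * T)) := by
        refine mul_le_mul hε1 ?_ (by positivity) (by norm_num)
        exact mul_le_mul_of_nonneg_left hβT (Nat.cast_nonneg N)
      nlinarith
    have e3 : (β : ℝ) * T' ≤ κ * (N * T) := by
      have : (T : ℝ) * 1 ≤ T * (κ * N) := mul_le_mul_of_nonneg_left hN1 hTpos.le
      nlinarith
    have e4 : (β : ℝ) * T' * T' ≤ T * (κ * N) := mul_le_mul hleR hT'N (Nat.cast_nonneg _) hTpos.le
    have e5 : (0 : ℝ) ≤ κ * (N * T) := by positivity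
    nlinarith
  have h5 : ∑ x ∈ range N, (∑ t ∈ range T, g (z + β * x + t)) / T = (∑ x ∈ range N, ∑ t ∈ range T, g (z + β * x + t)) / T := by
    rw [Finset.sum_div]
  rw [h5, le_div_iff₀ hTpos]
  exact hgoal

end Pool.Agent.OP
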